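import Mathlib

set_option autoImplicit false

/-!
# Neighbour-locating colourings: permutations, counting, lower bound
-/

namespace Pool.Agent.Q271.NL

open Finset

/-! ### Permutations whose orbits are the fibres of a map -/

lemma rot_pow (m : ℕ) (x : Fin (m + 1)) (n : ℕ) :
    (((finRotate (m + 1)) ^ n) x).val = (x.val + n) % (m + 1) := by
  induction n with
  | zero => simp [Nat.mod_eq_of_lt x.isLt]
  | succ n ih =>
    rw [pow_succ', Equiv.Perm.mul_apply, finRotate_succ_apply, Fin.val_add, ih]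
    simp [add_assoc]

lemma exists_single {α : Type*} [Finite α] :
    ∃ c : Equiv.Perm α, ∀ x y, ∃ n : ℕ, (c ^ n) x = y := by
  obtain ⟨m, ⟨e⟩⟩ := Finite.exists_equiv_fin α
  cases m with
  | zero => exact ⟨1, fun x => (e x).elim0⟩
  | succ m =>
    refine ⟨(e.trans (finRotate (m + 1))).trans e.symm, fun x y => ?_⟩
    have hp : ∀ n : ℕ, (((e.trans (finRotate (m + 1))).trans e.symm : Equiv.Perm α) ^ n) x =
        e.symm (((finRotate (m + 1)) ^ n) (e x)) := by
      intro n
      induction n with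
      | zero => simp
      | succ n ih =>
        rw [pow_succ', Equiv.Perm.mul_apply, ih, pow_succ', Equiv.Perm.mul_apply]
        simp
    refine ⟨(m + 1) - (e x).val + (e y).val, ?_⟩
    rw [hp]
    have : ((finRotate (m + 1)) ^ ((m + 1) - (e x).val + (e y).val)) (e x) = e y := by
      apply Fin.ext
      rw [rot_pow]
      have h1 := (e x).isLt
      have h2 := (e y).isLt
      have h3 : (e x).val + ((m + 1) - (e x).val + (e y).val) = (m + 1) + (e y).val := by omega
      rw [h3, Nat.add_mod_left, Nat.mod_eq_of_lt h2]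
    rw [this, Equiv.symm_apply_apply]

lemma exists_fib {α β : Type*} [Finite α] (f : α → β) :
    ∃ c : Equiv.Perm α, (∀ x, f (c x) = f x) ∧ ∀ x y, f x = f y → ∃ n : ℕ, (c ^ n) x = y := by
  have h : ∀ b : β, ∃ c : Equiv.Perm {x // f x = b}, ∀ x y, ∃ n : ℕ, (c ^ n) x = y :=
    fun b => exists_single
  choose c hc using h
  let C : Equiv.Perm α :=
    ((Equiv.sigmaFiberEquiv f).symm.trans (Equiv.sigmaCongrRight c)).trans
      (Equiv.sigmaFiberEquiv f)
  have hC : ∀ (b : β) (z : {x // f x = b}), C z.1 = (c b z).1 := by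
    rintro b ⟨x, rfl⟩
    rfl
  have hCn : ∀ (b : β) (z : {x // f x = b}) (n : ℕ), (C ^ n) z.1 = ((c b ^ n) z).1 := by
    intro b z n
    induction n with
    | zero => rfl
    | succ n ih =>
      rw [pow_succ', Equiv.Perm.mul_apply, ih, hC, pow_succ', Equiv.Perm.mul_apply]
  refine ⟨C, fun x => ?_, fun x y hxy => ?_⟩
  · have := hC (f x) ⟨x, rfl⟩
    rw [this]
    exact (c (f x) ⟨x, rfl⟩).2
  · obtain ⟨n, hn⟩ := hc (f y) ⟨x, hxy⟩ ⟨y, rfl⟩
    refine ⟨n, ?_⟩
    have := hCn (f y) ⟨x, hxy⟩ n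
    rw [hn] at this
    exact this

/-- The same for a finite set inside a bigger type. -/
lemma exists_perm_on {α β : Type*} [DecidableEq α] (s : Finset α) (f : α → β) :
    ∃ c : Equiv.Perm α, (∀ x ∈ s, c x ∈ s ∧ f (c x) = f x) ∧
      (∀ x ∈ s, c⁻¹ x ∈ s ∧ f (c⁻¹ x) = f x) ∧
      ∀ x ∈ s, ∀ y ∈ s, f x = f y → ∃ n : ℕ, (c ^ n) x = y := by
  obtain ⟨c, h1, h2⟩ := exists_fib (fun x : {x // x ∈ s} => f x.1)
  have e1 : ∀ x (hx : x ∈ s), (Equiv.Perm.ofSubtype c) x = (c ⟨x, hx⟩).1 := fun x hx =>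
    Equiv.Perm.ofSubtype_apply_of_mem c hx
  have e2 : ∀ x (hx : x ∈ s), (Equiv.Perm.ofSubtype c)⁻¹ x = (c⁻¹ ⟨x, hx⟩).1 := by
    intro x hx
    rw [← map_inv]
    exact Equiv.Perm.ofSubtype_apply_of_mem _ hx
  refine ⟨Equiv.Perm.ofSubtype c, ?_, ?_, ?_⟩
  · intro x hx
    rw [e1 x hx]
    exact ⟨(c ⟨x, hx⟩).2, h1 ⟨x, hx⟩⟩
  · intro x hx
    rw [e2 x hx]
    refine ⟨(c⁻¹ ⟨x, hx⟩).2, ?_⟩
    have := h1 (c⁻¹ ⟨x, hx⟩)
    have h3 : c (c⁻¹ ⟨x, hx⟩) = ⟨x, hx⟩ := c.apply_symm_apply _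
    rw [h3] at this
    exact this.symm
  · intro x hx y hy hxy
    obtain ⟨n, hn⟩ := h2 ⟨x, hx⟩ ⟨y, hy⟩ hxy
    refine ⟨n, ?_⟩
    rw [← map_pow]
    have := Equiv.Perm.ofSubtype_apply_of_mem (c ^ n) hx
    rw [this, hn]

/-! ### Counting -/

section count

variable {α : Type*} [DecidableEq α]

/-- pairs `(i, A)` with `i ∉ A ⊆ E`, `i ∈ E` and `1 ≤ |A| ≤ D` -/
def PP (E : Finset α) (D : ℕ) : Finset (α × Finset α) :=
  (E ×ˢ E.powerset).filter (fun p => p.1 ∉ p.2 ∧ 1 ≤ p.2.card ∧ p.2.card ≤ D)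

lemma mem_PP {E : Finset α} {D : ℕ} {i : α} {A : Finset α} :
    (i, A) ∈ PP E D ↔ i ∈ E ∧ A ⊆ E ∧ i ∉ A ∧ 1 ≤ A.card ∧ A.card ≤ D := by
  simp [PP, and_assoc]

lemma card_small (E : Finset α) (D : ℕ) :
    (E.powerset.filter (fun A => 1 ≤ A.card ∧ A.card ≤ D)).card =
      ∑ j ∈ Icc 1 D, (E.card).choose j := by
  have : E.powerset.filter (fun A => 1 ≤ A.card ∧ A.card ≤ D) =
      (Icc 1 D).biUnion (fun j => E.powersetCard j) := by
    ext A
    simp only [mem_filter, mem_powerset, mem_biUnion, mem_Icc, mem_powersetCard]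
    constructor
    · rintro ⟨h1, h2⟩
      exact ⟨A.card, h2, h1, rfl⟩
    · rintro ⟨j, hj, h1, rfl⟩
      exact ⟨h1, hj⟩
  rw [this, card_biUnion]
  · refine sum_congr rfl fun j _ => ?_
    rw [card_powersetCard]
  · intro i _ j _ hij
    exact pairwise_disjoint_powersetCard E hij

lemma card_PP (E : Finset α) (D : ℕ) :
    (PP E D).card = ∑ j ∈ Icc 1 D, E.card * (E.card - 1).choose j := by
  have h1 : (PP E D).card = ∑ i ∈ E, ((PP E D).filter (fun p => p.1 = i)).card :=
    card_eq_sum_card_fiberwise (f := Prod.fst) (t := E) (by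
      intro p hp
      exact (mem_PP.mp hp).1)
  rw [h1]
  have h2 : ∀ i ∈ E, ((PP E D).filter (fun p => p.1 = i)).card =
      ∑ j ∈ Icc 1 D, (E.card - 1).choose j := by
    intro i hi
    rw [← card_erase_of_mem hi, ← card_small]
    refine card_bij (fun p _ => p.2) ?_ ?_ ?_
    · rintro ⟨a, A⟩ hp
      simp only [mem_filter, mem_PP, mem_powerset] at hp ⊢
      obtain ⟨⟨h1, h2, h3, h4⟩, rfl⟩ := hp
      refine ⟨?_, h4⟩
      intro x hx
      rw [mem_erase]
      exact ⟨fun h => h3 (h ▸ hx), h2 hx⟩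
    · rintro ⟨a, A⟩ hp ⟨b, B⟩ hq h
      simp only [mem_filter] at hp hq h
      rw [Prod.mk.injEq]
      exact ⟨hp.2.trans hq.2.symm, h⟩
    · intro A hA
      simp only [mem_filter, mem_powerset] at hA
      refine ⟨(i, A), ?_, rfl⟩
      simp only [mem_filter, mem_PP]
      refine ⟨⟨hi, hA.1.trans (erase_subset _ _), ?_, hA.2⟩, trivial⟩
      intro h
      exact notMem_erase i E (hA.1 h)
  rw [sum_congr rfl h2, sum_const, smul_eq_mul, mul_sum]

end count

lemma count_lt {m k D : ℕ} (hmk : m < k) (hD : 1 ≤ D) (hk : 2 ≤ k) :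
    ∑ j ∈ Icc 1 D, m * (m - 1).choose j < ∑ j ∈ Icc 1 D, k * (k - 1).choose j := by
  apply sum_lt_sum
  · intro j _
    exact Nat.mul_le_mul hmk.le (Nat.choose_le_choose j (by omega))
  · refine ⟨1, by simp [hD], ?_⟩
    simp only [Nat.choose_one_right]
    calc m * (m - 1) ≤ m * (k - 1) := Nat.mul_le_mul le_rfl (by omega)
      _ < k * (k - 1) := Nat.mul_lt_mul_of_pos_right hmk (by omega)

/-! ### Neighbour-locating colourings -/

/-- The set of colours in the neighbourhood of `v`. -/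
def colSet {V C : Type*} (G : SimpleGraph V) (f : V → C) (v : V) : Set C :=
  {c | ∃ w, G.Adj v w ∧ f w = c}

/-- `f` is a neighbour-locating colouring. -/
def IsNL {V C : Type*} (G : SimpleGraph V) (f : V → C) : Prop :=
  (∀ u v, G.Adj u v → f u ≠ f v) ∧ ∀ u v, u ≠ v → f u = f v → colSet G f u ≠ colSet G f v

/-- The neighbour-locating chromatic number. -/
noncomputable def chiNL {V : Type*} (G : SimpleGraph V) : ℕ :=
  sInf {k : ℕ | ∃ f : V → Fin k, IsNL G f}

/-- The bound for the order in terms of the number of colours. -/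
lemma card_le_of_NL {V : Type*} [Fintype V] (G : SimpleGraph V) [DecidableRel G.Adj] {m D : ℕ}
    (hdeg : ∀ v, G.degree v ≤ D) (hpos : ∀ v, 1 ≤ G.degree v) {f : V → Fin m} (hf : IsNL G f) :
    Fintype.card V ≤ ∑ j ∈ Icc 1 D, m * (m - 1).choose j := by
  classical
  let A : V → Finset (Fin m) := fun v => (G.neighborFinset v).image f
  have hA : ∀ v, (A v : Set (Fin m)) = colSet G f v := by
    intro v
    ext c
    simp [A, colSet]
  have h1 : (univ : Finset V).card ≤ (PP (univ : Finset (Fin m)) D).card := by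
    refine card_le_card_of_injOn (fun v => (f v, A v)) ?_ ?_
    · intro v _
      rw [mem_coe, mem_PP]
      refine ⟨mem_univ _, subset_univ _, ?_, ?_, ?_⟩
      · intro h
        obtain ⟨w, hw, he⟩ := mem_image.mp h
        rw [SimpleGraph.mem_neighborFinset] at hw
        exact hf.1 v w hw he.symm
      · have : (G.neighborFinset v).Nonempty := by
          rw [← card_pos, SimpleGraph.card_neighborFinset_eq_degree]
          exact hpos v
        exact card_pos.mpr (this.image f)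
      · refine card_image_le.trans ?_
        rw [SimpleGraph.card_neighborFinset_eq_degree]
        exact hdeg v
    · intro u _ v _ h
      simp only [Prod.mk.injEq] at h
      by_contra hne
      refine hf.2 u v hne h.1 ?_
      rw [← hA, ← hA, h.2]
  rw [card_PP, card_univ, card_univ, Fintype.card_fin] at h1
  exact h1

end Pool.Agent.Q271.NL
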