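import Pool.Agent.Q271.NL.Base

set_option autoImplicit false

/-!
# The extremal graphs
-/

namespace Pool.Agent.Q271.NL

open Finset

/-- the two largest elements -/
def top2 (S : Finset ℕ) : Finset ℕ := S.filter (fun x => (S.filter (fun y => x < y)).card ≤ 1)

lemma top2_subset (S : Finset ℕ) : top2 S ⊆ S := filter_subset _ _

/-- if the pair `a < b` of elements of `S` is above all other elements, it is `top2 S` -/
lemma top2_eq {S : Finset ℕ} {a b : ℕ} (ha : a ∈ S) (hb : b ∈ S) (hab : a < b)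
    (h : ∀ x ∈ S, x = a ∨ x = b ∨ x < a) : top2 S = {a, b} := by
  ext x
  simp only [top2, mem_filter, mem_insert, mem_singleton]
  constructor
  · rintro ⟨hx, hc⟩
    by_contra hne
    push Not at hne
    have hxa : x < a := by
      rcases h x hx with h | h | h
      · exact absurd h hne.1
      · exact absurd h hne.2
      · exact h
    have : ({a, b} : Finset ℕ) ⊆ S.filter (fun y => x < y) := by
      intro y hy
      simp only [mem_insert, mem_singleton] at hy
      rw [mem_filter]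
      rcases hy with rfl | rfl
      · exact ⟨ha, hxa⟩
      · exact ⟨hb, by omega⟩
    have h2 := card_le_card this
    rw [card_pair hab.ne] at h2
    omega
  · rintro (rfl | rfl)
    · refine ⟨ha, ?_⟩
      have : S.filter (fun y => x < y) ⊆ {b} := by
        intro y hy
        rw [mem_filter] at hy
        rw [mem_singleton]
        rcases h y hy.1 with h | h | h <;> omega
      exact (card_le_card this).trans (by simp)
    · refine ⟨hb, ?_⟩
      have : S.filter (fun y => x < y) ⊆ ∅ := by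
        intro y hy
        rw [mem_filter] at hy
        rcases h y hy.1 with h | h | h <;> omega
      exact (card_le_card this).trans (by simp)

/-- the minimum of a set with at least three elements is not one of the two largest -/
lemma min_notMem_top2 {S : Finset ℕ} {t : ℕ} (ht : t ∈ S) (hmin : ∀ x ∈ S, t ≤ x)
    (h3 : 3 ≤ S.card) : t ∉ top2 S := by
  intro h
  rw [top2, mem_filter] at h
  have : S.erase t ⊆ S.filter (fun y => t < y) := by
    intro y hy
    rw [mem_erase] at hy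
    rw [mem_filter]
    exact ⟨hy.2, lt_of_le_of_ne (hmin y hy.2) (Ne.symm hy.1)⟩
  have h2 := card_le_card this
  rw [card_erase_of_mem ht] at h2
  omega

/-- every set with at least two elements has two largest elements -/
lemma exists_top2 {S : Finset ℕ} (h2 : 2 ≤ S.card) : ∃ a b, a < b ∧ a ∈ S ∧ b ∈ S ∧
    (∀ x ∈ S, x = a ∨ x = b ∨ x < a) ∧ top2 S = {a, b} := by
  have hne : S.Nonempty := card_pos.mp (by omega)
  set b := S.max' hne with hb
  have hbS : b ∈ S := max'_mem S hne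
  have hne' : (S.erase b).Nonempty := by
    rw [← card_pos, card_erase_of_mem hbS]
    omega
  set a := (S.erase b).max' hne' with ha
  have haS : a ∈ S.erase b := max'_mem _ hne'
  have hab : a < b := lt_of_le_of_ne (le_max' S a (mem_of_mem_erase haS)) (ne_of_mem_erase haS)
  have hall : ∀ x ∈ S, x = a ∨ x = b ∨ x < a := by
    intro x hx
    by_cases hxb : x = b
    · exact Or.inr (Or.inl hxb)
    · have := le_max' (S.erase b) x (mem_erase.mpr ⟨hxb, hx⟩)
      rw [← ha] at this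
      rcases lt_or_eq_of_le this with h | h
      · exact Or.inr (Or.inr h)
      · exact Or.inl h
  exact ⟨a, b, hab, mem_of_mem_erase haS, hbS, hall,
    top2_eq (mem_of_mem_erase haS) hbS hab hall⟩

/-- the sets `S` -/
def SS (k D : ℕ) : Finset (Finset ℕ) :=
  (range k).powerset.filter (fun S => 2 ≤ S.card ∧ S.card ≤ D + 1)

lemma mem_SS {k D : ℕ} {S : Finset ℕ} :
    S ∈ SS k D ↔ (∀ x ∈ S, x < k) ∧ 2 ≤ S.card ∧ S.card ≤ D + 1 := by
  simp only [SS, mem_filter, mem_powerset]
  constructor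
  · rintro ⟨h1, h2⟩
    exact ⟨fun x hx => mem_range.mp (h1 hx), h2⟩
  · rintro ⟨h1, h2⟩
    exact ⟨fun x hx => mem_range.mpr (h1 x hx), h2⟩

/-- the properties of the permutation used -/
structure Good (k D : ℕ) (c : Equiv.Perm (Finset ℕ)) : Prop where
  h1 : ∀ S ∈ SS k D, c S ∈ SS k D ∧ top2 (c S) = top2 S
  h2 : ∀ S ∈ SS k D, c⁻¹ S ∈ SS k D ∧ top2 (c⁻¹ S) = top2 S
  h3 : ∀ S ∈ SS k D, ∀ T ∈ SS k D, top2 S = top2 T → ∃ n : ℕ, (c ^ n) S = T

lemma exists_good (k D : ℕ) : ∃ c, Good k D c := by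
  obtain ⟨c, h1, h2, h3⟩ := exists_perm_on (SS k D) top2
  exact ⟨c, ⟨h1, h2, h3⟩⟩

/-- transport of the set along the edge from colour `i` to colour `j` -/
def sig (c : Equiv.Perm (Finset ℕ)) (i j : ℕ) (S : Finset ℕ) : Finset ℕ :=
  if top2 S = {i, j} then (if i < j then c S else c⁻¹ S) else S

/-- the additional edges -/
def Ex (k : ℕ) (p q : ℕ × Finset ℕ) : Prop :=
  p.1 = 0 ∧ ((∃ b, 1 ≤ q.1 ∧ q.1 ≤ b ∧ b + 1 < k ∧ p.2 = {0, q.1, b} ∧ q.2 = {0, q.1, b + 1}) ∨
    (2 ≤ q.1 ∧ p.2 = {0, q.1} ∧ q.2 = {0, q.1 - 1, q.1}))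

/-- adjacency -/
def AD (k : ℕ) (c : Equiv.Perm (Finset ℕ)) (p q : ℕ × Finset ℕ) : Prop :=
  p.1 ≠ q.1 ∧ q.1 ∈ p.2 ∧ p.1 ∈ q.2 ∧ (q.2 = sig c p.1 q.1 p.2 ∨ Ex k p q ∨ Ex k q p)

/-- the vertices: pairs `(i, S)` with `i ∈ S`, `S ∈ SS` -/
def VS (k D : ℕ) : Finset (ℕ × Finset ℕ) :=
  (range k ×ˢ SS k D).filter (fun p => p.1 ∈ p.2)

lemma mem_VS {k D i : ℕ} {S : Finset ℕ} : (i, S) ∈ VS k D ↔ S ∈ SS k D ∧ i ∈ S := by
  simp only [VS, mem_filter, mem_product, mem_range]
  constructor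
  · rintro ⟨⟨-, h1⟩, h2⟩
    exact ⟨h1, h2⟩
  · rintro ⟨h1, h2⟩
    exact ⟨⟨(mem_SS.mp h1).1 i h2, h1⟩, h2⟩

abbrev W (k D : ℕ) := {p : ℕ × Finset ℕ // p ∈ VS k D}

variable {k D : ℕ} {c : Equiv.Perm (Finset ℕ)}

lemma sig_mem (hc : Good k D c) {i j : ℕ} {S : Finset ℕ} (hS : S ∈ SS k D) :
    sig c i j S ∈ SS k D ∧ top2 (sig c i j S) = top2 S := by
  unfold sig
  split_ifs
  · exact hc.h1 S hS
  · exact hc.h2 S hS
  · exact ⟨hS, rfl⟩

lemma sig_mem' (hc : Good k D c) {i j : ℕ} {S : Finset ℕ} (hS : S ∈ SS k D) (hi : i ∈ S)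
    (hj : j ∈ S) : i ∈ sig c i j S ∧ j ∈ sig c i j S := by
  by_cases h : top2 S = {i, j}
  · have h1 := (sig_mem hc (i := i) (j := j) hS).2
    rw [h] at h1
    have h2 := top2_subset (sig c i j S)
    rw [h1] at h2
    exact ⟨h2 (by simp), h2 (by simp)⟩
  · unfold sig
    rw [if_neg h]
    exact ⟨hi, hj⟩

lemma sig_symm (hc : Good k D c) {i j : ℕ} (hij : i ≠ j) {S : Finset ℕ} (hS : S ∈ SS k D) :
    sig c j i (sig c i j S) = S := by
  have h1 := (sig_mem hc (i := i) (j := j) hS).2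
  by_cases h : top2 S = {i, j}
  · have h2 : top2 (sig c i j S) = {j, i} := by rw [h1, h, pair_comm]
    rw [sig, if_pos h2]
    rcases lt_or_gt_of_ne hij with hlt | hlt
    · rw [if_neg (by omega), sig, if_pos h, if_pos hlt]
      exact c.symm_apply_apply S
    · rw [if_pos hlt, sig, if_pos h, if_neg (by omega)]
      exact c.apply_symm_apply S
  · have h2 : sig c i j S = S := by rw [sig, if_neg h]
    rw [h2, sig, if_neg]
    rw [pair_comm]
    exact h

/-- The graph. -/
def GR (k D : ℕ) (c : Equiv.Perm (Finset ℕ)) (hc : Good k D c) : SimpleGraph (W k D) where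
  Adj u v := AD k c u.1 v.1
  symm := ⟨by
    rintro ⟨⟨i, S⟩, hu⟩ ⟨⟨j, T⟩, hv⟩ ⟨h1, h2, h3, h4⟩
    refine ⟨h1.symm, h3, h2, ?_⟩
    rcases h4 with h | h | h
    · left
      simp only at h ⊢
      rw [h, sig_symm hc h1 (mem_VS.mp hu).1]
    · exact Or.inr (Or.inr h)
    · exact Or.inr (Or.inl h)⟩
  loopless := ⟨fun u h => h.1 rfl⟩

/-! ### Connectedness -/

/-- reachability, on the ambient type -/
def RR (hc : Good k D c) (p q : ℕ × Finset ℕ) : Prop :=
  ∃ (hp : p ∈ VS k D) (hq : q ∈ VS k D), (GR k D c hc).Reachable ⟨p, hp⟩ ⟨q, hq⟩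

lemma RR.trans {hc : Good k D c} {p q r : ℕ × Finset ℕ} (h : RR hc p q) (h' : RR hc q r) :
    RR hc p r := by
  obtain ⟨hp, hq, h1⟩ := h
  obtain ⟨_, hr, h2⟩ := h'
  exact ⟨hp, hr, h1.trans h2⟩

lemma RR.symm {hc : Good k D c} {p q : ℕ × Finset ℕ} (h : RR hc p q) : RR hc q p := by
  obtain ⟨hp, hq, h1⟩ := h
  exact ⟨hq, hp, h1.symm⟩

lemma RR.rfl' {hc : Good k D c} {p : ℕ × Finset ℕ} (h : p ∈ VS k D) : RR hc p p :=
  ⟨h, h, SimpleGraph.Reachable.refl _⟩

lemma RR.of_adj {hc : Good k D c} {p q : ℕ × Finset ℕ} (hp : p ∈ VS k D) (hq : q ∈ VS k D)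
    (h : AD k c p q) : RR hc p q := by
  refine ⟨hp, hq, SimpleGraph.Adj.reachable ?_⟩
  exact h

lemma base_adj (hc : Good k D c) {i j : ℕ} {S : Finset ℕ} (hS : S ∈ SS k D) (hi : i ∈ S)
    (hj : j ∈ S) (hij : i ≠ j) : RR hc (i, S) (j, sig c i j S) := by
  have h := sig_mem' hc hS hi hj
  refine RR.of_adj (mem_VS.mpr ⟨hS, hi⟩) (mem_VS.mpr ⟨(sig_mem hc hS).1, h.2⟩)
    ⟨hij, hj, h.1, Or.inl rfl⟩

lemma star (hc : Good k D c) {i j : ℕ} {S : Finset ℕ} (hS : S ∈ SS k D) (hi : i ∈ S)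
    (hj : j ∈ S) (h3 : 3 ≤ S.card) : RR hc (i, S) (j, S) := by
  have hne : S.Nonempty := ⟨i, hi⟩
  set t := S.min' hne with ht
  have htS : t ∈ S := min'_mem S hne
  have hmin : ∀ x ∈ S, t ≤ x := fun x hx => min'_le S x hx
  have htop := min_notMem_top2 htS hmin h3
  have key : ∀ i ∈ S, RR hc (i, S) (t, S) := by
    intro i hi
    by_cases hit : i = t
    · rw [hit]
      exact RR.rfl' (mem_VS.mpr ⟨hS, htS⟩)
    · have h := base_adj hc hS hi htS hit
      have e : sig c i t S = S := by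
        rw [sig, if_neg]
        intro h
        apply htop
        rw [h]
        simp
      rwa [e] at h
  exact (key i hi).trans (key j hj).symm

lemma pair_mem (a b : ℕ) (hab : a < b) (hb : b < k) (hD : 3 ≤ D) :
    ({a, b} : Finset ℕ) ∈ SS k D ∧ top2 {a, b} = {a, b} := by
  constructor
  · rw [mem_SS, card_pair hab.ne]
    refine ⟨?_, le_rfl, by omega⟩
    intro x hx
    simp only [mem_insert, mem_singleton] at hx
    omega
  · refine top2_eq (by simp) (by simp) hab ?_
    intro x hx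
    simp only [mem_insert, mem_singleton] at hx
    tauto

lemma triple_mem (a b : ℕ) (ha : 1 ≤ a) (hab : a < b) (hb : b < k) (hD : 3 ≤ D) :
    ({0, a, b} : Finset ℕ) ∈ SS k D ∧ top2 {0, a, b} = {a, b} ∧ ({0, a, b} : Finset ℕ).card = 3 := by
  have h3 : ({0, a, b} : Finset ℕ).card = 3 := by
    rw [card_insert_of_notMem, card_pair hab.ne]
    simp only [mem_insert, mem_singleton]
    omega
  refine ⟨?_, ?_, h3⟩
  · rw [mem_SS, h3]
    refine ⟨?_, by omega, by omega⟩
    intro x hx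
    simp only [mem_insert, mem_singleton] at hx
    omega
  · refine top2_eq (by simp) (by simp) hab ?_
    intro x hx
    simp only [mem_insert, mem_singleton] at hx
    omega

/-- a set with the top pair `{a, b}` other than `{a, b}` has at least three elements -/
lemma three_le {S : Finset ℕ} {a b : ℕ} (hab : a < b) (h : top2 S = {a, b}) (hne : S ≠ {a, b}) :
    3 ≤ S.card := by
  have hsub : ({a, b} : Finset ℕ) ⊆ S := by rw [← h]; exact top2_subset S
  have hss : ({a, b} : Finset ℕ) ⊂ S := lt_of_le_of_ne hsub (Ne.symm hne)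
  have := card_lt_card hss
  rw [card_pair hab.ne] at this
  omega

lemma cluster (hc : Good k D c) (hD : 3 ≤ D) {a b : ℕ} (ha : 1 ≤ a) (hab : a < b) (hb : b < k)
    {S : Finset ℕ} (hS : S ∈ SS k D) (htop : top2 S = {a, b}) {i : ℕ} (hi : i ∈ S) :
    RR hc (i, S) (0, {0, a, b}) := by
  obtain ⟨hE, hEtop⟩ := pair_mem (k := k) a b hab hb hD
  obtain ⟨hT, hTtop, hT3⟩ := triple_mem (k := k) a b ha hab hb hD
  set E : Finset ℕ := {a, b} with hEdef
  set T : Finset ℕ := {0, a, b} with hTdef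
  have hTE : T ≠ E := by
    intro h
    have := congrArg card h
    rw [hT3, hEdef, card_pair hab.ne] at this
    omega
  -- edges along the permutation
  have hstep : ∀ S ∈ SS k D, top2 S = {a, b} → RR hc (a, S) (b, c S) := by
    intro S hS h
    have haS : a ∈ S := top2_subset S (by rw [h]; simp)
    have hbS : b ∈ S := top2_subset S (by rw [h]; simp)
    have h1 := base_adj hc hS haS hbS hab.ne
    rwa [sig, if_pos h, if_pos hab] at h1
  have hcE : c E ≠ E := by
    intro h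
    obtain ⟨n, hn⟩ := hc.h3 E hE T hT (hEtop.trans hTtop.symm)
    have : ∀ n : ℕ, (c ^ n) E = E := by
      intro n
      induction n with
      | zero => rfl
      | succ n ih => rw [pow_succ', Equiv.Perm.mul_apply, ih, h]
    rw [this] at hn
    exact hTE hn.symm
  set L := c⁻¹ E with hL
  have hcL : c L = E := c.apply_symm_apply E
  have hLE : L ≠ E := by
    intro h
    rw [h] at hcL
    exact hcE hcL
  have hLS : L ∈ SS k D := (hc.h2 E hE).1
  have hLtop : top2 L = {a, b} := (hc.h2 E hE).2.trans hEtop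
  have hL3 := three_le hab hLtop hLE
  have mema : ∀ S, top2 S = {a, b} → a ∈ S := fun S h => top2_subset S (by rw [h]; simp)
  have memb : ∀ S, top2 S = {a, b} → b ∈ S := fun S h => top2_subset S (by rw [h]; simp)
  have key : ∀ (n : ℕ) (S : Finset ℕ), S ∈ SS k D → top2 S = {a, b} → S ≠ E → (c ^ n) S = E →
      ∀ i ∈ S, RR hc (i, S) (a, L) := by
    intro n
    induction n with
    | zero => intro S _ _ hne h; exact absurd h hne
    | succ n ih =>
      intro S hS htop hne h i hi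
      have h3 := three_le hab htop hne
      rw [pow_succ, Equiv.Perm.mul_apply] at h
      by_cases hcS : c S = E
      · have : S = L := by rw [hL, ← hcS]; exact (c.symm_apply_apply S).symm
        rw [← this]
        exact star hc hS hi (mema S htop) h3
      · have h4 := hc.h1 S hS
        have h5 := ih (c S) h4.1 (h4.2.trans htop) hcS h b (memb _ (h4.2.trans htop))
        exact (star hc hS hi (mema S htop) h3).trans ((hstep S hS htop).trans h5)
  have key2 : ∀ (S : Finset ℕ), S ∈ SS k D → top2 S = {a, b} → S ≠ E →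
      ∀ i ∈ S, RR hc (i, S) (a, L) := by
    intro S hS htop hne i hi
    obtain ⟨n, hn⟩ := hc.h3 S hS E hE (htop.trans hEtop.symm)
    exact key n S hS htop hne hn i hi
  have hT0 : RR hc (0, T) (a, L) := key2 T hT hTtop hTE 0 (by simp [hTdef])
  by_cases hSE : S = E
  · rw [hSE] at hi ⊢
    have hi' : i = a ∨ i = b := by simpa [hEdef] using hi
    rcases hi' with rfl | rfl
    · have h4 := hc.h1 E hE
      have h5 := key2 (c E) h4.1 (h4.2.trans hEtop) hcE b (memb _ (h4.2.trans hEtop))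
      exact (hstep E hE hEtop).trans (h5.trans hT0.symm)
    · have h6 := hstep L hLS hLtop
      rw [hcL] at h6
      exact h6.symm.trans hT0.symm
  · exact (key2 S hS htop hSE i hi).trans hT0.symm

/-- sets with top pair `{0, b}` -/
lemma zero_cluster {S : Finset ℕ} {b : ℕ} (hb : 0 < b) (hbS : b ∈ S) (h0 : 0 ∈ S)
    (h : ∀ x ∈ S, x = 0 ∨ x = b ∨ x < 0) : S = {0, b} := by
  ext x
  simp only [mem_insert, mem_singleton]
  constructor
  · intro hx
    rcases h x hx with h | h | h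
    · exact Or.inl h
    · exact Or.inr h
    · omega
  · rintro (rfl | rfl)
    · exact h0
    · exact hbS

lemma zero_pair (hc : Good k D c) (hD : 3 ≤ D) {b : ℕ} (hb : 1 ≤ b) (hbk : b < k) :
    RR hc (0, {0, b}) (b, {0, b}) := by
  obtain ⟨hE, hEtop⟩ := pair_mem (k := k) 0 b (by omega) hbk hD
  have h1 := base_adj hc hE (i := 0) (j := b) (by simp) (by simp) (by omega)
  have h2 := (sig_mem hc (i := 0) (j := b) hE).2
  rw [hEtop] at h2
  have h3 := (sig_mem hc (i := 0) (j := b) hE).1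
  obtain ⟨a', b', hab', ha', hb', hall, htop⟩ := exists_top2 (mem_SS.mp h3).2.1
  rw [h2] at htop
  have e1 : a' ∈ ({0, b} : Finset ℕ) := by rw [htop]; simp
  have e2 : b' ∈ ({0, b} : Finset ℕ) := by rw [htop]; simp
  simp only [mem_insert, mem_singleton] at e1 e2
  have e3 : a' = 0 := by omega
  have e4 : b' = b := by omega
  subst e3
  subst e4
  rw [zero_cluster (by omega) hb' ha' hall] at h1
  exact h1

lemma hub_step (hc : Good k D c) (hD : 3 ≤ D) {a b : ℕ} (ha : 1 ≤ a) (hab : a ≤ b)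
    (hb : b + 1 < k) : RR hc (0, {0, a, b}) (0, {0, a, b + 1}) := by
  obtain ⟨hT, -, hT3⟩ := triple_mem (k := k) a (b + 1) ha (by omega) hb hD
  have hS : ({0, a, b} : Finset ℕ) ∈ SS k D := by
    rcases lt_or_eq_of_le hab with h | h
    · exact (triple_mem (k := k) a b ha h (by omega) hD).1
    · subst h
      have : ({0, a, a} : Finset ℕ) = {0, a} := by simp
      rw [this]
      exact (pair_mem (k := k) 0 a (by omega) (by omega) hD).1
  have h1 : RR hc (0, {0, a, b}) (a, {0, a, b + 1}) := by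
    refine RR.of_adj (mem_VS.mpr ⟨hS, by simp⟩) (mem_VS.mpr ⟨hT, by simp⟩)
      ⟨by simp only; omega, by simp, by simp, Or.inr (Or.inl ⟨rfl, Or.inl ⟨b, ha, hab, hb, rfl, rfl⟩⟩)⟩
  exact h1.trans (star hc hT (by simp) (by simp) hT3.ge)

lemma hub_line (hc : Good k D c) (hD : 3 ≤ D) {a : ℕ} (ha : 1 ≤ a) (hak : a < k) :
    ∀ d, a + d < k → RR hc (0, {0, a}) (0, {0, a, a + d}) := by
  intro d
  induction d with
  | zero =>
    intro _
    have : ({0, a, a + 0} : Finset ℕ) = {0, a} := by simp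
    rw [this]
    exact RR.rfl' (mem_VS.mpr ⟨(pair_mem (k := k) 0 a (by omega) hak hD).1, by simp⟩)
  | succ d ih =>
    intro h
    exact (ih (by omega)).trans (hub_step hc hD ha (by omega) (by omega))

lemma hub_down (hc : Good k D c) (hD : 3 ≤ D) {b : ℕ} (hb : 2 ≤ b) (hbk : b < k) :
    RR hc (0, {0, b}) (0, {0, b - 1}) := by
  obtain ⟨hT, -, hT3⟩ := triple_mem (k := k) (b - 1) b (by omega) (by omega) hbk hD
  have h1 : RR hc (0, {0, b}) (b, {0, b - 1, b}) := by
    refine RR.of_adj (mem_VS.mpr ⟨(pair_mem (k := k) 0 b (by omega) hbk hD).1, by simp⟩)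
      (mem_VS.mpr ⟨hT, by simp⟩)
      ⟨by simp only; omega, by simp, by simp, Or.inr (Or.inl ⟨rfl, Or.inr ⟨hb, rfl, rfl⟩⟩)⟩
  have h2 := hub_line hc hD (a := b - 1) (by omega) (by omega) 1 (by omega)
  have e : b - 1 + 1 = b := by omega
  rw [e] at h2
  exact h1.trans ((star hc hT (by simp) (by simp) hT3.ge).trans h2.symm)

lemma hub_root (hc : Good k D c) (hD : 3 ≤ D) (hk : 2 ≤ k) :
    ∀ b, 1 ≤ b → b < k → RR hc (0, {0, b}) (0, {0, 1}) := by
  intro b hb
  induction b, hb using Nat.le_induction with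
  | base =>
    intro _
    exact RR.rfl' (mem_VS.mpr ⟨(pair_mem (k := k) 0 1 (by omega) (by omega) hD).1, by simp⟩)
  | succ b hb ih =>
    intro h
    have := hub_down hc hD (b := b + 1) (by omega) h
    rw [Nat.add_sub_cancel] at this
    exact this.trans (ih (by omega))

lemma root (hc : Good k D c) (hD : 3 ≤ D) (hk : 2 ≤ k) {i : ℕ} {S : Finset ℕ}
    (h : (i, S) ∈ VS k D) : RR hc (i, S) (0, {0, 1}) := by
  rw [mem_VS] at h
  obtain ⟨hS, hi⟩ := h
  obtain ⟨a, b, hab, ha, hb, hall, htop⟩ := exists_top2 (mem_SS.mp hS).2.1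
  have hbk : b < k := (mem_SS.mp hS).1 b hb
  rcases Nat.eq_zero_or_pos a with h0 | h0
  · subst h0
    have hSE := zero_cluster hab hb ha hall
    subst hSE
    have h1 := zero_pair hc hD (b := b) hab hbk
    have h2 := hub_root hc hD hk b hab hbk
    simp only [mem_insert, mem_singleton] at hi
    rcases hi with rfl | rfl
    · exact h2
    · exact h1.symm.trans h2
  · have h1 := cluster hc hD h0 hab hbk hS htop hi
    have h2 := hub_line hc hD h0 (by omega) (b - a) (by omega)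
    have e : a + (b - a) = b := by omega
    rw [e] at h2
    exact h1.trans (h2.symm.trans (hub_root hc hD hk a h0 (by omega)))

lemma connected (hc : Good k D c) (hD : 3 ≤ D) (hk : 2 ≤ k) : (GR k D c hc).Connected := by
  have h0 : ((0, {0, 1}) : ℕ × Finset ℕ) ∈ VS k D :=
    mem_VS.mpr ⟨(pair_mem (k := k) 0 1 (by omega) (by omega) hD).1, by simp⟩
  haveI : Nonempty (W k D) := ⟨⟨_, h0⟩⟩
  refine SimpleGraph.Connected.mk ?_
  rintro ⟨⟨i, S⟩, hu⟩ ⟨⟨j, T⟩, hv⟩
  obtain ⟨_, _, h1⟩ := root hc hD hk hu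
  obtain ⟨_, _, h2⟩ := root hc hD hk hv
  exact h1.trans h2.symm

end Pool.Agent.Q271.NL
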