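import Pool.Agent.Q271.NL.Graph

set_option autoImplicit false

/-!
# The extremal graphs: degrees, colouring, order
-/

namespace Pool.Agent.Q271.NL

open Finset

variable {k D : ℕ} {c : Equiv.Perm (Finset ℕ)}

/-! ### Membership in small sets -/

lemma mem3 {a b c d e f : ℕ} (h : ({a, b, c} : Finset ℕ) = {d, e, f}) :
    (a = d ∨ a = e ∨ a = f) ∧ (b = d ∨ b = e ∨ b = f) ∧ (c = d ∨ c = e ∨ c = f) ∧
    (d = a ∨ d = b ∨ d = c) ∧ (e = a ∨ e = b ∨ e = c) ∧ (f = a ∨ f = b ∨ f = c) := by
  refine ⟨?_, ?_, ?_, ?_, ?_, ?_⟩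
  · have : a ∈ ({d, e, f} : Finset ℕ) := by rw [← h]; simp
    simpa using this
  · have : b ∈ ({d, e, f} : Finset ℕ) := by rw [← h]; simp
    simpa using this
  · have : c ∈ ({d, e, f} : Finset ℕ) := by rw [← h]; simp
    simpa using this
  · have : d ∈ ({a, b, c} : Finset ℕ) := by rw [h]; simp
    simpa using this
  · have : e ∈ ({a, b, c} : Finset ℕ) := by rw [h]; simp
    simpa using this
  · have : f ∈ ({a, b, c} : Finset ℕ) := by rw [h]; simp
    simpa using this

lemma card3 {a b : ℕ} (ha : 1 ≤ a) (hb : 1 ≤ b) (hab : a ≠ b) :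
    ({0, a, b} : Finset ℕ).card = 3 := by
  rw [card_insert_of_notMem, card_pair hab]
  simp only [mem_insert, mem_singleton]
  omega

/-- A canonical form of the additional edges: `p = (0, {0, j, b})`, `q = (j, {0, j, b'})`. -/
lemma Ex.form {p q : ℕ × Finset ℕ} (h : Ex k p q) : p.1 = 0 ∧ 1 ≤ q.1 ∧
    ∃ b b', p.2 = {0, q.1, b} ∧ q.2 = {0, q.1, b'} ∧ q.1 ≤ b ∧
      (b' = b + 1 ∨ (b = q.1 ∧ 2 ≤ q.1 ∧ b' = q.1 - 1)) := by
  obtain ⟨h0, ⟨b, h1, h2, h3, h4, h5⟩ | ⟨h1, h2, h3⟩⟩ := h
  · exact ⟨h0, h1, b, b + 1, h4, h5, h2, Or.inl rfl⟩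
  · refine ⟨h0, by omega, q.1, q.1 - 1, ?_, ?_, le_rfl, Or.inr ⟨rfl, h1, rfl⟩⟩
    · rw [h2]; simp
    · rw [h3, pair_comm (q.1 - 1)]

lemma Ex.card_right {p q : ℕ × Finset ℕ} (h : Ex k p q) : q.2.card = 3 := by
  obtain ⟨_, h1, b, b', _, h3, h4, h5⟩ := h.form
  rw [h3]
  apply card3 <;> omega

lemma Ex.card_left {p q : ℕ × Finset ℕ} (h : Ex k p q) : p.2.card ≤ 3 := by
  obtain ⟨_, h1, b, b', h2, h3, h4, h5⟩ := h.form
  rw [h2]
  exact Finset.card_le_three

lemma Ex.unique_right {p q q' : ℕ × Finset ℕ} (h : Ex k p q) (h' : Ex k p q')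
    (h3 : p.2.card = 3) : q = q' := by
  obtain ⟨-, a1, b, c, a2, a3, a4, a5⟩ := h.form
  obtain ⟨-, b1, d, e, b2, b3, b4, b5⟩ := h'.form
  have hb : b ≠ q.1 := by
    rintro rfl
    rw [a2, show ({0, q.1, q.1} : Finset ℕ) = {0, q.1} by simp] at h3
    have := card_le_two (a := 0) (b := q.1)
    omega
  have hd : d ≠ q'.1 := by
    rintro rfl
    rw [b2, show ({0, q'.1, q'.1} : Finset ℕ) = {0, q'.1} by simp] at h3
    have := card_le_two (a := 0) (b := q'.1)
    omega
  have hc : c = b + 1 := by omega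
  have he : e = d + 1 := by omega
  have := mem3 (a2.symm.trans b2)
  have e1 : q.1 = q'.1 := by omega
  have e2 : b = d := by omega
  refine Prod.ext e1 ?_
  rw [a3, b3, hc, he, e1, e2]

lemma Ex.unique_left {p p' q : ℕ × Finset ℕ} (h : Ex k p q) (h' : Ex k p' q) : p = p' := by
  obtain ⟨a0, a1, b, c, a2, a3, a4, a5⟩ := h.form
  obtain ⟨b0, b1, d, e, b2, b3, b4, b5⟩ := h'.form
  have := mem3 (a3.symm.trans b3)
  have e1 : c = e := by omega
  have e2 : b = d := by omega
  refine Prod.ext (a0.trans b0.symm) ?_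
  rw [a2, b2, e2]

lemma Ex.two {p q q' : ℕ × Finset ℕ} (h : Ex k p q) (h' : Ex k p q') (h2 : p.2.card = 2) :
    q' = (q.1, {0, q.1, q.1 + 1}) ∨ q' = (q.1, {0, q.1, q.1 - 1}) := by
  obtain ⟨-, a1, b, c, a2, a3, a4, a5⟩ := h.form
  obtain ⟨-, b1, d, e, b2, b3, b4, b5⟩ := h'.form
  have hb : b = q.1 := by
    by_contra hne
    rw [a2, card3 a1 (by omega) (by omega)] at h2
    omega
  have hd : d = q'.1 := by
    by_contra hne
    rw [b2, card3 b1 (by omega) (by omega)] at h2
    omega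
  have := mem3 (a2.symm.trans b2)
  have e1 : q'.1 = q.1 := by omega
  rcases b5 with h | h
  · left
    refine Prod.ext e1 ?_
    rw [b3, h, hd, e1]
  · right
    refine Prod.ext e1 ?_
    rw [b3, h.2.2, e1]

lemma Ex.not_both {p q q' : ℕ × Finset ℕ} (h : Ex k p q) (h' : Ex k q' p) : False := by
  have := h.form.1
  have := h'.form.2.1
  omega

/-! ### Degrees -/

open Classical in
lemma card_extra (u : W k D) : u.1.2.card - 1 +
    (univ.filter (fun v : W k D => Ex k u.1 v.1 ∨ Ex k v.1 u.1)).card ≤ max D 3 := by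
  have hS : 2 ≤ (u.1.2).card ∧ (u.1.2).card ≤ D + 1 := (mem_SS.mp (mem_VS.mp u.2).1).2
  set F := univ.filter (fun v : W k D => Ex k u.1 v.1 ∨ Ex k v.1 u.1) with hF
  rcases F.eq_empty_or_nonempty with h0 | ⟨q, hq⟩
  · rw [h0, card_empty]
    omega
  · have hq' := (mem_filter.mp hq).2
    rcases hq' with hq' | hq'
    · have h3 : (u.1.2).card ≤ 3 := hq'.card_left
      rcases (show (u.1.2).card = 2 ∨ (u.1.2).card = 3 by omega) with h2 | h3
      · have : F.card ≤ ({((q.1.1, {0, q.1.1, q.1.1 + 1}) : ℕ × Finset ℕ),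
            (q.1.1, {0, q.1.1, q.1.1 - 1})} : Finset (ℕ × Finset ℕ)).card := by
          refine card_le_card_of_injOn (fun v => v.1) ?_ (fun a _ b _ h => Subtype.ext h)
          intro v hv
          rw [mem_coe, hF, mem_filter] at hv
          rw [mem_coe, mem_insert, mem_singleton]
          rcases hv.2 with h | h
          · exact hq'.two h h2
          · exact absurd h (fun h => hq'.not_both h)
        have h4 := this.trans card_le_two
        omega
      · have : F.card ≤ 1 := by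
          rw [card_le_one]
          intro a ha b hb
          rw [hF, mem_filter] at ha hb
          have key : ∀ v : W k D, (Ex k u.1 v.1 ∨ Ex k v.1 u.1) → v = q := by
            intro v hv
            rcases hv with h | h
            · exact Subtype.ext (h.unique_right hq' h3)
            · exact absurd h (fun h => hq'.not_both h)
          rw [key a ha.2, key b hb.2]
        omega
    · have h3 : (u.1.2).card = 3 := hq'.card_right
      have : F.card ≤ 1 := by
        rw [card_le_one]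
        intro a ha b hb
        rw [hF, mem_filter] at ha hb
        have key : ∀ v : W k D, (Ex k u.1 v.1 ∨ Ex k v.1 u.1) → v = q := by
          intro v hv
          rcases hv with h | h
          · exact absurd h (fun h => h.not_both hq')
          · exact Subtype.ext (h.unique_left hq')
        rw [key a ha.2, key b hb.2]
      omega

lemma degree_le (hc : Good k D c) (hD : 3 ≤ D) (u : W k D) [Fintype ((GR k D c hc).neighborSet u)] :
    (GR k D c hc).degree u ≤ D := by
  classical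
  have h1 : (GR k D c hc).neighborFinset u ⊆
      (univ.filter (fun v : W k D => v.1.1 ∈ u.1.2.erase u.1.1 ∧ v.1.2 = sig c u.1.1 v.1.1 u.1.2)) ∪
      (univ.filter (fun v : W k D => Ex k u.1 v.1 ∨ Ex k v.1 u.1)) := by
    intro v hv
    rw [SimpleGraph.mem_neighborFinset] at hv
    obtain ⟨h1, h2, h3, h4⟩ := hv
    rw [mem_union, mem_filter, mem_filter]
    rcases h4 with h | h
    · exact Or.inl ⟨mem_univ _, mem_erase.mpr ⟨h1.symm, h2⟩, h⟩
    · exact Or.inr ⟨mem_univ _, h⟩
  have h2 : (univ.filter (fun v : W k D =>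
      v.1.1 ∈ u.1.2.erase u.1.1 ∧ v.1.2 = sig c u.1.1 v.1.1 u.1.2)).card ≤ u.1.2.card - 1 := by
    rw [← card_erase_of_mem (mem_VS.mp u.2).2]
    refine card_le_card_of_injOn (fun v => v.1.1) ?_ ?_
    · intro v hv
      rw [mem_coe, mem_filter] at hv
      exact hv.2.1
    · intro a ha b hb h
      rw [mem_coe, mem_filter] at ha hb
      refine Subtype.ext (Prod.ext h ?_)
      simp only at h
      rw [ha.2.2, hb.2.2, h]
  have h3 := card_extra u
  have h4 := (card_le_card h1).trans (card_union_le _ _)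
  rw [SimpleGraph.card_neighborFinset_eq_degree] at h4
  have h5 : max D 3 = D := max_eq_left hD
  omega

lemma le_degree (hc : Good k D c) (u : W k D) [Fintype ((GR k D c hc).neighborSet u)] :
    u.1.2.card - 1 ≤ (GR k D c hc).degree u := by
  classical
  obtain ⟨⟨i, S⟩, hu⟩ := u
  obtain ⟨hS, hi⟩ := mem_VS.mp hu
  rw [← SimpleGraph.card_neighborFinset_eq_degree]
  simp only
  rw [← card_erase_of_mem hi]
  have hm : ∀ j ∈ S.erase i, (j, sig c i j S) ∈ VS k D := fun j hj =>
    mem_VS.mpr ⟨(sig_mem hc hS).1, (sig_mem' hc hS hi (mem_of_mem_erase hj)).2⟩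
  refine card_le_card_of_forall_subsingleton (fun j v => v.1.1 = j) ?_ ?_
  · intro j hj
    refine ⟨⟨_, hm j hj⟩, ?_, rfl⟩
    rw [SimpleGraph.mem_neighborFinset]
    exact ⟨(ne_of_mem_erase hj).symm, mem_of_mem_erase hj,
      (sig_mem' hc hS hi (mem_of_mem_erase hj)).1, Or.inl rfl⟩
  · intro v _ a ha b hb
    exact ha.2.symm.trans hb.2

/-! ### The colouring -/

lemma col_lt (v : W k D) : v.1.1 < k := by
  obtain ⟨⟨i, S⟩, hv⟩ := v
  obtain ⟨hS, hi⟩ := mem_VS.mp hv
  exact (mem_SS.mp hS).1 i hi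

/-- the colouring by the first coordinate -/
def col (v : W k D) : Fin k := ⟨v.1.1, col_lt v⟩

lemma mem_colSet (hc : Good k D c) (v : W k D) (x : Fin k) :
    x ∈ colSet (GR k D c hc) col v ↔ x.val ∈ v.1.2.erase v.1.1 := by
  constructor
  · rintro ⟨w, ⟨h1, h2, -⟩, rfl⟩
    exact mem_erase.mpr ⟨h1.symm, h2⟩
  · intro h
    obtain ⟨⟨i, S⟩, hv⟩ := v
    obtain ⟨hS, hi⟩ := mem_VS.mp hv
    simp only at h
    have h2 := sig_mem' hc hS hi (mem_of_mem_erase h)
    refine ⟨⟨(x.val, sig c i x.val S), mem_VS.mpr ⟨(sig_mem hc hS).1, h2.2⟩⟩,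
      ⟨(ne_of_mem_erase h).symm, mem_of_mem_erase h, h2.1, Or.inl rfl⟩, rfl⟩

lemma col_NL (hc : Good k D c) : IsNL (GR k D c hc) (col : W k D → Fin k) := by
  constructor
  · rintro u v ⟨h, -⟩ he
    exact h (congrArg Fin.val he)
  · intro u v huv hcol he
    apply huv
    have h1 : u.1.1 = v.1.1 := congrArg Fin.val hcol
    refine Subtype.ext (Prod.ext h1 ?_)
    have hu := mem_VS.mp u.2
    have hv := mem_VS.mp v.2
    have key : u.1.2.erase u.1.1 = v.1.2.erase v.1.1 := by
      ext x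
      constructor
      · intro hx
        have hxk : x < k := (mem_SS.mp hu.1).1 x (mem_of_mem_erase hx)
        have := (mem_colSet hc u ⟨x, hxk⟩).mpr hx
        rw [he] at this
        exact (mem_colSet hc v ⟨x, hxk⟩).mp this
      · intro hx
        have hxk : x < k := (mem_SS.mp hv.1).1 x (mem_of_mem_erase hx)
        have := (mem_colSet hc v ⟨x, hxk⟩).mpr hx
        rw [← he] at this
        exact (mem_colSet hc u ⟨x, hxk⟩).mp this
    rw [← insert_erase hu.2, ← insert_erase hv.2, key, h1]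

/-! ### The order -/

lemma card_VS (k D : ℕ) : (VS k D).card = ∑ j ∈ Icc 1 D, k * (k - 1).choose j := by
  have h := card_PP (range k) D
  rw [card_range] at h
  rw [← h]
  refine card_bij' (fun p _ => (p.1, p.2.erase p.1)) (fun p _ => (p.1, insert p.1 p.2)) ?_ ?_ ?_ ?_
  · rintro ⟨i, S⟩ hp
    obtain ⟨hS, hi⟩ := mem_VS.mp hp
    obtain ⟨h1, h2, h3⟩ := mem_SS.mp hS
    rw [mem_PP, card_erase_of_mem hi]
    exact ⟨mem_range.mpr (h1 i hi), fun x hx => mem_range.mpr (h1 x (mem_of_mem_erase hx)),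
      notMem_erase _ _, by omega, by omega⟩
  · rintro ⟨i, A⟩ hp
    obtain ⟨h1, h2, h3, h4, h5⟩ := mem_PP.mp hp
    rw [mem_VS, mem_SS, card_insert_of_notMem h3]
    refine ⟨⟨?_, by omega, by omega⟩, mem_insert_self _ _⟩
    intro x hx
    rcases mem_insert.mp hx with rfl | hx
    · exact mem_range.mp h1
    · exact mem_range.mp (h2 hx)
  · rintro ⟨i, S⟩ hp
    obtain ⟨hS, hi⟩ := mem_VS.mp hp
    simp only [insert_erase hi]
  · rintro ⟨i, A⟩ hp
    obtain ⟨h1, h2, h3, h4, h5⟩ := mem_PP.mp hp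
    simp only [erase_insert h3]

/-- The bound is attained. -/
theorem attained (k D : ℕ) (hD : 3 ≤ D) (hk : D + 1 ≤ k) :
    ∃ (V : Type) (_ : Fintype V) (G : SimpleGraph V) (_ : DecidableRel G.Adj),
      G.Connected ∧ chiNL G = k ∧ G.maxDegree = D ∧
      Fintype.card V = ∑ j ∈ Icc 1 D, k * (k - 1).choose j := by
  classical
  obtain ⟨c, hc⟩ := exists_good k D
  have hcard : Fintype.card (W k D) = ∑ j ∈ Icc 1 D, k * (k - 1).choose j := by
    rw [Fintype.card_coe, card_VS]
  refine ⟨W k D, inferInstance, GR k D c hc, inferInstance, connected hc hD (by omega), ?_, ?_,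
    hcard⟩
  · -- the neighbour-locating chromatic number
    unfold chiNL
    have hmem : k ∈ {m : ℕ | ∃ f : W k D → Fin m, IsNL (GR k D c hc) f} := ⟨col, col_NL hc⟩
    refine le_antisymm (Nat.sInf_le hmem) ?_
    refine le_csInf ⟨k, hmem⟩ ?_
    rintro m ⟨f, hf⟩
    by_contra hlt
    push Not at hlt
    have h1 := card_le_of_NL (GR k D c hc) (D := D) (fun v => degree_le hc hD v) (fun v => by
      have h := le_degree hc v
      have h2 : 2 ≤ (v.1.2).card := (mem_SS.mp (mem_VS.mp v.2).1).2.1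
      omega) hf
    have h2 := count_lt (D := D) hlt (by omega) (by omega)
    omega
  · refine le_antisymm ?_ ?_
    · exact SimpleGraph.maxDegree_le_of_forall_degree_le _ _ (fun v => degree_le hc hD v)
    · have hS : range (D + 1) ∈ SS k D := by
        rw [mem_SS, card_range]
        refine ⟨?_, by omega, le_rfl⟩
        intro x hx
        have := mem_range.mp hx
        omega
      have hu : (0, range (D + 1)) ∈ VS k D := mem_VS.mpr ⟨hS, by simp⟩
      have h := le_degree hc ⟨_, hu⟩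
      simp only [card_range] at h
      have h2 := (GR k D c hc).degree_le_maxDegree ⟨_, hu⟩
      omega

end Pool.Agent.Q271.NL
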